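import Mathlib

set_option autoImplicit false

namespace Pool.Agent.H.MP_0eb590_gt

open Set Topology Filter

def XX : Type := Unit ⊕ ℕ ⊕ (ℕ × ℕ) ⊕ ℝ

instance : TopologicalSpace XX := ⊥
instance : DiscreteTopology XX := ⟨rfl⟩

lemma mk_XX : Cardinal.mk XX = Cardinal.continuum := by
  simp [XX, Cardinal.mk_real]
  exact Cardinal.add_eq_right Cardinal.aleph0_le_continuum
    (Cardinal.one_le_aleph0.trans Cardinal.aleph0_le_continuum)

lemma exists_theta : ∃ θ : XX → ℝ, Function.Injective θ ∧ ∀ a, 0 < θ a := by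
  obtain ⟨e⟩ : Nonempty (XX ≃ ℝ) := Cardinal.eq.1 (by rw [mk_XX, Cardinal.mk_real])
  exact ⟨fun a => Real.exp (e a), Real.exp_injective.comp e.injective, fun a => Real.exp_pos _⟩

noncomputable def th : XX → ℝ := exists_theta.choose
lemma th_inj : Function.Injective th := exists_theta.choose_spec.1
lemma th_pos (a : XX) : 0 < th a := exists_theta.choose_spec.2 a

lemma not_sep : ¬ TopologicalSpace.SeparableSpace XX := by
  intro h
  have : Countable XX := TopologicalSpace.separableSpace_iff_countable.1 h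
  have h2 := Cardinal.mk_le_aleph0 (α := XX)
  rw [mk_XX] at h2
  exact absurd Cardinal.aleph0_lt_continuum (not_lt.2 h2)

abbrev V := XX → ℝ
abbrev M := (ℕ → ℝ) × (ℕ × ℕ → ℝ)

def ct : XX := Sum.inl ()
def cs (R : ℕ) : XX := Sum.inr (Sum.inl R)
def cw (p : ℕ × ℕ) : XX := Sum.inr (Sum.inr (Sum.inl p))

noncomputable def uu (R : ℕ) (x : V) : ℝ := max (x ct - R) 0 * Real.exp (x (cs R))

noncomputable def gam (x : V) : M := (fun R => uu R x, fun p => x (cw p))

noncomputable def SS (a : XX) (u : ℝ) (w : ℕ → ℝ) : ℝ :=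
  ∑ j ∈ Finset.range ⌈1 / u⌉₊, max (1 - j * u) 0 * w j * th a ^ j

noncomputable def phi (i : XX × ℕ) (m : M) : ℝ :=
  m.1 (i.2 + 2) * SS i.1 (m.1 (i.2 + 1)) (fun j => m.2 (i.2, j))

noncomputable def chi (R : ℕ) (t : ℝ) : ℝ := min 1 (max (R + 1 - t) 0)

noncomputable def ff (i : XX × ℕ) (x : V) : ℝ := chi i.2 (x ct) * x i.1 + phi i (gam x)

noncomputable def Phi (x : V) : M × (XX × ℕ → ℝ) := (gam x, fun i => ff i x)

lemma uu_pos_iff (R : ℕ) (x : V) : 0 < uu R x ↔ (R : ℝ) < x ct := by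
  unfold uu
  rw [mul_pos_iff_of_pos_right (Real.exp_pos _), lt_max_iff]
  simp

lemma uu_zero (R : ℕ) (x : V) (h : x ct ≤ R) : uu R x = 0 := by
  unfold uu
  rw [max_eq_right (by linarith), zero_mul]

lemma gam_cont : Continuous gam := by
  unfold gam uu
  fun_prop

lemma SS_eq (a : XX) (u : ℝ) (hu : 0 < u) (w : ℕ → ℝ) (N : ℕ) (hN : 1 / u ≤ N) :
    SS a u w = ∑ j ∈ Finset.range N, max (1 - j * u) 0 * w j * th a ^ j := by
  unfold SS
  refine Finset.sum_subset (Finset.range_mono (Nat.ceil_le.2 hN)) fun j _ hj => ?_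
  rw [Finset.mem_range, not_lt, Nat.ceil_le, div_le_iff₀ hu] at hj
  rw [max_eq_right (by linarith), zero_mul, zero_mul]

lemma phi_contAt (i : XX × ℕ) (m : M) (hm : 0 < m.1 (i.2 + 1)) : ContinuousAt (phi i) m := by
  obtain ⟨N, hN⟩ := exists_nat_gt (1 / m.1 (i.2 + 1))
  have hc : Continuous fun m : M => m.1 (i.2 + 2) * ∑ j ∈ Finset.range N,
      max (1 - j * m.1 (i.2 + 1)) 0 * m.2 (i.2, j) * th i.1 ^ j := by fun_prop
  refine hc.continuousAt.congr ?_
  have h1 : ContinuousAt (fun m : M => m.1 (i.2 + 1)) m := by fun_prop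
  have h2 : ContinuousAt (fun m : M => 1 / m.1 (i.2 + 1)) m :=
    continuousAt_const.div h1 hm.ne'
  filter_upwards [h1.eventually (lt_mem_nhds hm), h2.eventually (gt_mem_nhds hN)] with m' a b
  unfold phi
  rw [SS_eq _ _ a _ N b.le]

lemma ff_cont (i : XX × ℕ) : Continuous (ff i) := by
  have h1 : Continuous fun x : V => chi i.2 (x ct) * x i.1 := by unfold chi; fun_prop
  refine h1.add (continuous_iff_continuousAt.2 fun x => ?_)
  by_cases h : ((i.2 + 1 : ℕ) : ℝ) < x ct
  · exact (phi_contAt i (gam x) ((uu_pos_iff _ _).2 h)).comp gam_cont.continuousAt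
  · refine (continuousAt_const (y := (0 : ℝ))).congr ?_
    have h2 : x ct < ((i.2 + 2 : ℕ) : ℝ) := by push_cast at h ⊢; linarith
    filter_upwards [(continuous_apply ct).continuousAt.eventually (gt_mem_nhds h2)] with y hy
    simp only [phi, gam]
    rw [uu_zero _ _ hy.le, zero_mul]

lemma Phi_cont : Continuous Phi := gam_cont.prodMk (continuous_pi ff_cont)

lemma ff_low (a : XX) (R : ℕ) (x : V) (h : x ct ≤ R) : ff (a, R) x = x a := by
  simp only [ff, phi, gam, chi]
  rw [uu_zero _ _ (by push_cast; linarith), min_eq_left (le_max_of_le_left (by linarith))]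
  ring

lemma ff_high (i : XX × ℕ) (x : V) (h : 0 < uu (i.2 + 1) x) : ff i x = phi i (gam x) := by
  rw [uu_pos_iff] at h
  push_cast at h
  simp only [ff, chi]
  rw [max_eq_right (by linarith)]
  simp

lemma Phi_inj : Function.Injective Phi := by
  intro x y h
  obtain ⟨R, hR⟩ := exists_nat_ge (max (x ct) (y ct))
  funext a
  have h1 : ff (a, R) x = ff (a, R) y := congrFun (congrArg Prod.snd h) (a, R)
  rwa [ff_low _ _ _ ((le_max_left _ _).trans hR), ff_low _ _ _ ((le_max_right _ _).trans hR)] at h1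

lemma solve (n : ℕ) (J : Finset XX) (r : XX → ℝ) (w0 : ℕ → ℝ) :
    ∃ w : ℕ → ℝ, (∀ j < n, w j = w0 j) ∧ ∀ a ∈ J,
      1 / ((n + (J.card + 1) : ℕ) : ℝ) * SS a (1 / ((n + (J.card + 1) : ℕ) : ℝ)) w = r a := by
  classical
  set N := n + (J.card + 1) with hN
  have hN0 : (0 : ℝ) < N := by rw [hN]; positivity
  set η : ℝ := 1 / N with hη
  let p := Lagrange.interpolate J th (fun a =>
    (N * r a - ∑ j ∈ Finset.range n, max (1 - j * η) 0 * w0 j * th a ^ j) / th a ^ n)
  have hp : p.natDegree < J.card + 1 := Nat.lt_succ_of_le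
    (Polynomial.natDegree_le_iff_degree_le.2
      (Lagrange.degree_interpolate_lt _ th_inj.injOn).le)
  refine ⟨fun j => if j < n then w0 j else p.coeff (j - n) / (1 - j * η), fun j hj => if_pos hj,
    fun a ha => ?_⟩
  rw [SS_eq _ _ (by positivity) _ N (by rw [hη, one_div_one_div]), hN, Finset.sum_range_add]
  have h1 : ∑ j ∈ Finset.range n, max (1 - j * η) 0 *
      (if j < n then w0 j else p.coeff (j - n) / (1 - j * η)) * th a ^ j =
      ∑ j ∈ Finset.range n, max (1 - j * η) 0 * w0 j * th a ^ j :=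
    Finset.sum_congr rfl fun j hj => by rw [if_pos (Finset.mem_range.1 hj)]
  have h2 : ∑ i ∈ Finset.range (J.card + 1), max (1 - ((n + i : ℕ) : ℝ) * η) 0 *
      (if n + i < n then w0 (n + i) else p.coeff (n + i - n) / (1 - ((n + i : ℕ) : ℝ) * η)) *
        th a ^ (n + i) = th a ^ n * p.eval (th a) := by
    rw [Polynomial.eval_eq_sum_range' hp, Finset.mul_sum]
    refine Finset.sum_congr rfl fun i hi => ?_
    have h3 : ((n + i : ℕ) : ℝ) * η < 1 := by
      rw [hη, mul_one_div, div_lt_one hN0]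
      exact_mod_cast (show n + i < N by have := Finset.mem_range.1 hi; omega)
    rw [if_neg (by omega), max_eq_left (by linarith), Nat.add_sub_cancel_left, pow_add]
    have : 1 - ((n + i : ℕ) : ℝ) * η ≠ 0 := by linarith
    field_simp
  rw [h1, h2, Lagrange.eval_interpolate_at_node _ th_inj.injOn ha]
  have := (pow_pos (th_pos a) n).ne'
  rw [hη]
  field_simp
  ring

noncomputable def mkV (t : ℝ) (s : ℕ → ℝ) (w : ℕ × ℕ → ℝ) : V :=
  Sum.elim (fun _ => t) (Sum.elim s (Sum.elim w (fun _ => 0)))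

lemma approx (x : V) (J : Finset XX) : ∃ y : ℕ → V, Tendsto (fun n => gam (y n)) atTop (𝓝 (gam x)) ∧
    (∀ R, ∀ᶠ n in atTop, 0 < uu R (y n)) ∧
    ∀ a ∈ J, ∀ R, Tendsto (fun n => ff (a, R) (y n)) atTop (𝓝 (ff (a, R) x)) := by
  choose W hW hW' using fun (n R : ℕ) =>
    solve n J (fun a => ff (a, R) x) (fun j => x (cw (R, j)))
  let η : ℕ → ℝ := fun n => 1 / ((n + (J.card + 1) : ℕ) : ℝ)
  have hη : ∀ n, 0 < η n := fun n => by simp only [η]; positivity
  have hη0 : Tendsto η atTop (𝓝 0) :=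
    tendsto_one_div_atTop_nhds_zero_nat.comp (tendsto_add_atTop_nat _)
  let tg : ℕ → ℕ → ℝ := fun n R => if 0 < uu R x then uu R x else η n
  have htg : ∀ n R, 0 < tg n R := by
    intro n R; simp only [tg]; split_ifs with h; exacts [h, hη n]
  let y : ℕ → V := fun n => mkV n (fun R => Real.log (tg n R / (n - R)))
    (fun p => if 0 < uu (p.1 + 1) x then x (cw p) else W n p.1 p.2)
  have hu : ∀ R, ∀ᶠ n in atTop, uu R (y n) = tg n R := by
    intro R
    filter_upwards [eventually_gt_atTop R] with n hn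
    have h1 : (0 : ℝ) < n - R := by rw [sub_pos]; exact_mod_cast hn
    show max ((n : ℝ) - R) 0 * Real.exp (Real.log (tg n R / (n - R))) = _
    rw [Real.exp_log (div_pos (htg n R) h1), max_eq_left h1.le]
    field_simp
  have hpos : ∀ R, ∀ᶠ n in atTop, 0 < uu R (y n) := fun R =>
    (hu R).mono fun n hn => hn ▸ htg n R
  have hg : Tendsto (fun n => gam (y n)) atTop (𝓝 (gam x)) := by
    refine Tendsto.prodMk_nhds (tendsto_pi_nhds.2 fun R => ?_) (tendsto_pi_nhds.2 fun p => ?_)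
    · refine Tendsto.congr' ((hu R).mono fun n hn => hn.symm) ?_
      by_cases h : 0 < uu R x
      · simp only [tg, if_pos h]; exact tendsto_const_nhds
      · simp only [tg, if_neg h]
        rw [uu_zero R x (by rwa [uu_pos_iff, not_lt] at h)]
        exact hη0
    · refine tendsto_const_nhds.congr' ?_
      filter_upwards [eventually_gt_atTop p.2] with n hn
      show _ = if 0 < uu (p.1 + 1) x then x (cw p) else W n p.1 p.2
      split_ifs
      · rfl
      · exact (hW n p.1 p.2 hn).symm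
  refine ⟨y, hg, hpos, fun a ha R => ?_⟩
  by_cases h : 0 < uu (R + 1) x
  · rw [ff_high (a, R) x h]
    refine ((phi_contAt (a, R) (gam x) h).tendsto.comp hg).congr' ?_
    filter_upwards [hpos (R + 1)] with n hn
    exact (ff_high (a, R) _ hn).symm
  · refine tendsto_const_nhds.congr' ?_
    have h2 : ¬ 0 < uu (R + 2) x := by
      rw [uu_pos_iff] at h ⊢
      push_cast at h ⊢
      intro h'; apply h; linarith
    filter_upwards [hpos (R + 1), hu (R + 1), hu (R + 2)] with n h3 h4 h5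
    rw [ff_high (a, R) _ h3, ← hW' n R a ha]
    simp only [phi, gam]
    rw [h4, h5]
    simp only [tg, if_neg h, if_neg h2]
    congr 2
    funext j
    exact (if_neg h).symm

lemma pibase (U : Set (M × (XX × ℕ → ℝ))) (hU : IsOpen U) (x : V) (hx : Phi x ∈ U) :
    ∃ b ∈ TopologicalSpace.countableBasis M, (gam ⁻¹' b).Nonempty ∧ gam ⁻¹' b ⊆ Phi ⁻¹' U := by
  classical
  obtain ⟨A, B, hA, hB, hxA, hxB, hAB⟩ := isOpen_prod_iff.1 hU _ _ hx
  obtain ⟨J, O, hO, hJ⟩ := isOpen_pi_iff.1 hB _ hxB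
  obtain ⟨y, h1, h2, h3⟩ := approx x (J.image Prod.fst)
  have e1 : ∀ᶠ n in atTop, gam (y n) ∈ A := h1.eventually (hA.mem_nhds hxA)
  have e2 : ∀ᶠ n in atTop, ∀ i ∈ J, 0 < uu (i.2 + 1) (y n) ∧ ff i (y n) ∈ O i :=
    (eventually_all_finset J).2 fun i hi => (h2 _).and
      ((h3 i.1 (Finset.mem_image_of_mem _ hi) i.2).eventually ((hO i hi).1.mem_nhds (hO i hi).2))
  obtain ⟨n, a1, a2⟩ := (e1.and e2).exists
  have hG : ∀ᶠ m in 𝓝 (gam (y n)), m ∈ A ∧ ∀ i ∈ J, 0 < m.1 (i.2 + 1) ∧ phi i m ∈ O i := by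
    refine Eventually.and (hA.mem_nhds a1) ((eventually_all_finset J).2 fun i hi => ?_)
    have c1 : ContinuousAt (fun m : M => m.1 (i.2 + 1)) (gam (y n)) := by fun_prop
    refine (c1.eventually (lt_mem_nhds (a2 i hi).1)).and
      ((phi_contAt i _ (a2 i hi).1).eventually ((hO i hi).1.mem_nhds ?_))
    rw [← ff_high i _ (a2 i hi).1]
    exact (a2 i hi).2
  obtain ⟨b, hb, hyb, hbG⟩ := (TopologicalSpace.isBasis_countableBasis M).mem_nhds_iff.1 hG
  refine ⟨b, hb, ⟨y n, hyb⟩, fun z hz => hAB ⟨(hbG hz).1, hJ fun i hi => ?_⟩⟩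
  have := (hbG hz).2 i hi
  show ff i z ∈ O i
  rw [ff_high i z this.1]
  exact this.2

def YY : Type := V

noncomputable instance topY : TopologicalSpace YY := TopologicalSpace.induced Phi inferInstance

lemma emb : @IsEmbedding YY _ topY _ Phi := ⟨⟨rfl⟩, Phi_inj⟩

lemma main : ∃ (Y : Type) (τ : TopologicalSpace Y), T35Space Y ∧
    ∃ g : C(XX, ℝ) → Y, Function.Bijective g ∧
      @Continuous C(XX, ℝ) Y
        (TopologicalSpace.induced (fun f : C(XX, ℝ) => (⇑f : XX → ℝ)) Pi.topologicalSpace) τ g ∧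
      ∃ B : Set (Set Y), B.Countable ∧ (∀ P ∈ B, IsOpen P ∧ P.Nonempty) ∧
        ∀ U : Set Y, IsOpen U → U.Nonempty → ∃ P ∈ B, P ⊆ U := by
  refine ⟨YY, topY, emb.t35Space, fun f => (f : XX → ℝ), ⟨DFunLike.coe_injective, fun x =>
    ⟨⟨x, continuous_of_discreteTopology⟩, rfl⟩⟩, ?_,
    {P | P ∈ (fun b => gam ⁻¹' b) '' TopologicalSpace.countableBasis M ∧ P.Nonempty}, ?_, ?_, ?_⟩
  · exact continuous_induced_rng.2 (@Continuous.comp _ V _ (_) Pi.topologicalSpace _ _ _ Phi_cont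
      continuous_induced_dom)
  · exact ((TopologicalSpace.countable_countableBasis M).image _).mono fun P hP => hP.1
  · rintro _ ⟨⟨b, hb, rfl⟩, h⟩
    exact ⟨(TopologicalSpace.isOpen_of_mem_countableBasis hb).preimage
      (continuous_fst.comp emb.continuous), h⟩
  · rintro _ ⟨U, hU, rfl⟩ ⟨x, hx⟩
    obtain ⟨b, hb, h1, h2⟩ := pibase U hU x hx
    exact ⟨_, ⟨⟨b, hb, rfl⟩, h1⟩, h2⟩

end Pool.Agent.H.MP_0eb590_gt
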